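import Mathlib
import Pool.Agent.N843.Em
import Pool.Agent.N843.Fb

/-!
# The parity conjecture at `p = 2` for CM forms of all weights over infinite towers of totally real
# fields: both sides

Let `E_M` be the quadratic twist by `M` of `X_0(49)`, `ψ_M` its Hecke character over
`K = ℚ(√-7) = ℚ(w)`, `w² = w - 2`. For every `k > 0` the newform of weight `2k` of `ψ_M^{2k-1}` is the
twist `f_k ⊗ χ_M` of the newform `f_k` of level `49` of `ψ_1^{2k-1}`; for every totally real field
`F = ℚ(√d_1, …, √d_n)` it has a base change to `F`, a Hilbert modular newform `g` of parallel weight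
`2k`; its Galois representation `V_g` at the prime `2` is the restriction to `Gal(ℚ̄/F)` of the
representation of `Gal(ℚ̄/ℚ)` induced from the character `κ^k κ'^(1-k)` of `Gal(ℚ̄/K)`, where `κ`, `κ'`
are the characters by which `Gal(ℚ̄/K)` acts on the `2`-adic Tate module of `E_M`. The `L`-function
of `g` is the product over the sets `T ⊆ {1, …, n}` of the `L(f_k ⊗ χ_d, s)`, where
`d = M ∏_{i ∈ T} d_i` up to squares, and its centre is `s = k`.

The class consists of the squarefree `D = 1 mod 8` with all prime factors `1 mod 8` and split in `K` or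
`5 mod 8` and inert in `K`.

Theorem: for all `M` of the class such that `E_M(ℚ)` is finite and `Ш(E_M/ℚ)` has no element of order
two, and so for at least the proportion `c = 0.419…` of the `M` of the class, there is an infinite
sequence `D_0, D_1, …` of natural numbers such that, for all `n`, the field
`F_n = ℚ(√D_0, …, √D_{n-1})` has degree `2^n`, and for the base changes `g` to `F_n` of the forms
`f_k ⊗ χ_M` of all weights `2k` with `k` odd, and of the forms `f_k ⊗ χ_{-M}` of all weights `2k` with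
`k` even, `H¹_f(F_n, V_g) = 0` and `L(g, s)` is not zero at the centre: both sides of the parity
conjecture for `p = 2` are even, in fact `0`.
-/

set_option autoImplicit false

namespace Pool.Agent.Results.MP_d4aa36_nt.InfiniteTowersBothSides

open Pool.Agent.Results.MP_787500_nt.AllWeightsMultiquadraticX49 (QBar OK ED Chr TateModule chi
  RankZeroShaTwo K Iso Adm Ind AtLeast)
open Pool.Agent.Results.MP_6e2fc3_nt.CMFormsAllWeights (GQ Zero)
open WeierstrassCurve Filter
open scoped Classical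

/-- The pairs `(a, b)` such that the norm `a² + a b + 2 b²` of `a + b ω` is `l`. -/
noncomputable def elements (l : ℕ) : Finset (ℤ × ℤ) :=
  (Finset.Icc (-(2 * l : ℤ)) (2 * l) ×ˢ Finset.Icc (-(2 * l : ℤ)) (2 * l)).filter
    fun v => v.1 ^ 2 + v.1 * v.2 + 2 * v.2 ^ 2 = l

/-- The `l`-th coefficient of `f_k`: half the sum of the `(x / √-7) x ^ (2 k - 1)` over the elements
`x = a + b ω` of norm `l`, where `ω` is mapped to `z`; the symbol `(x / √-7)` is the Legendre symbol of
`a + 4 b` modulo `7`, as `ω = 4` modulo `√-7`. -/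
noncomputable def coeff (z : ℂ) (k l : ℕ) : ℂ :=
  (∑ v ∈ elements l, (jacobiSym (v.1 + 4 * v.2) 7 : ℂ) *
    ((v.1 : ℂ) + (v.2 : ℂ) * z) ^ (2 * k - 1)) / 2

/-- The value at `n > 0` of the quadratic character of `ℚ(√d)`, for odd squarefree `d` with
`|d| ≡ 1 mod 4`: it is the Jacobi symbol `(n / |d|)`, multiplied by the nontrivial character modulo
`4` if `d < 0`. -/
def quad (d n : ℤ) : ℤ := (if d < 0 then ZMod.χ₄ (n : ZMod 4) else 1) * jacobiSym n d.natAbs

/-- `L(f_k ⊗ χ_d, s)`, the Dirichlet series with the coefficients `χ_d(l) a_k(l)` for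
`Re s > k + 1/2`, has an entire continuation, and it is not zero at the centre `s = k`. -/
def OrderZero (k : ℕ) (d : ℤ) : Prop := ∀ z : ℂ, z ^ 2 = z - 2 → ∃ L : ℂ → ℂ, Differentiable ℂ L ∧
  (∀ s : ℂ, (k : ℝ) + 1 / 2 < s.re →
    LSeriesHasSum (fun l => (quad d l : ℂ) * coeff z k l) s (L s)) ∧ L k ≠ 0

/-- The curve `E_d : y² = x³ - 3 d x² - 32 d² x - 64 d³`, the quadratic twist by `d` of
`X_0(49) : y² + x y = x³ - x² - 2 x - 1`. -/
def model (d : ℤ) : WeierstrassCurve ℤ := ⟨0, -3 * d, 0, -32 * d ^ 2, -64 * d ^ 3⟩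

/-- The weights `2k` for the twist by `d`: `k > 0` is odd if `d > 0` and even if `d < 0`. -/
def Weight (d k : ℤ) : Prop := 0 < k ∧ ((0 < d ∧ Odd k) ∨ (d < 0 ∧ Even k))

/-- The element `-√-7 d` of `ℤ[ω]`. -/
def tw (d : ℤ) : OK := ⟨d, -2 * d⟩

/-- The curve `E_M` is over `K` isomorphic to the elliptic curve `ED w (tw M)`, the absolute Galois
group of `K` acts on its `2`-adic Tate module by `κ`, `κ'`, and for `F = ℚ(√d_1, …, √d_n)` and all
the `k` in `Weight M` the group `H¹_f(F, V)` is zero for the representation `V` of the form of weight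
`2k`, that is, the one induced from `κ^k κ'^(1-k)`. -/
def AllForms (M : ℤ) {n : ℕ} (d : Fin n → ℕ) : Prop := ∀ w : QBar, w ^ 2 = w - 2 →
  Iso ((model M).map (Int.castRingHom (K w))) (ED w (tw M)) ∧ (ED w (tw M)).IsElliptic ∧
  ∃ κ κ' : Chr w, TateModule (tw M) κ κ' ∧
    ∀ s : Fin n → QBar, (∀ i, s i ^ 2 = (d i : QBar)) → ∀ c₀ : GQ, c₀ w = 1 - w →
      ∀ k : ℤ, Weight M k → Zero s (chi κ κ' k) c₀

/-- Both sides of the parity conjecture for `p = 2` over the field `F = ℚ(√d_1, …, √d_n)` are `0`, for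
the base changes `g` to `F` of the newforms `f_k ⊗ χ_M` of the weights `2k` with `k` odd if `M > 0` and
even if `M < 0`: `AllForms M d` says that `H¹_f(F, V_g) = 0` for all of them, and `L(g, s)`, the
product over the sets `T` of the `L(f_k ⊗ χ_d, s)` with `d = M ∏_{i ∈ T} d_i` up to squares, is not
zero at `s = k`. -/
def BothSidesZero (M : ℤ) {n : ℕ} (d : Fin n → ℕ) : Prop :=
  AllForms M d ∧ ∀ T : Finset (Fin n), ∃ D k : ℕ, k ≠ 0 ∧ D % 4 = 1 ∧
    M.natAbs * ∏ i ∈ T, d i = D * k ^ 2 ∧ ∀ k : ℕ, Weight M k → OrderZero k (M.sign * D)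

/-- There is an infinite sequence `D_0, D_1, …` of members of the class such that for all `n` the
field `F_n = ℚ(√D_0, …, √D_{n-1})` has degree `2 ^ n` (no product of some of the `D_i` is a square),
and both sides of the parity conjecture are `0` for the base changes to `F_n` of the forms
`f_k ⊗ χ_M`, `k` odd, and `f_k ⊗ χ_{-M}`, `k` even. -/
def InfiniteTower (M : ℕ) : Prop :=
  ∃ D : ℕ → ℕ, (∀ i, Adm (D i)) ∧ ∀ n : ℕ, Ind (fun i : Fin n => D i) ∧
    BothSidesZero M (fun i : Fin n => D i) ∧ BothSidesZero (-M) (fun i : Fin n => D i)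

/-- The constant `c = 0.4194…`. -/
noncomputable def c : ℝ := ∏' i : ℕ, (1 - (1 / 2 : ℝ) ^ (2 * i + 1))

/-! ### The proof -/

section proof

open Pool.Agent.N843.Z
open Pool.Agent.N843.A (coreLZ isoZ selZ twZ_ne)
open Pool.Agent.N843.E (exists_tateO)
open Pool.Agent.Results.MP_787500_nt.AllWeightsMultiquadraticX49 (elliptic)

lemma zero_of {D : ℕ} (h : Fm D) {M : ℤ} {k : ℕ} (hk : Weight M k) :
    OrderZero k (M.sign * D) := by
  intro z hz
  have h1 : 1 ≤ k := by
    have := hk.1
    omega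
  obtain ⟨F, h2, h3, h4⟩ := coreLZ h hz h1
  have e : ((-1 : ℤ) ^ (k + 1) * D) = M.sign * D := by
    rcases hk.2 with ⟨h5, h6⟩ | ⟨h5, h6⟩
    · have h7 : Odd k := by exact_mod_cast h6
      rw [Even.neg_one_pow h7.add_one, Int.sign_eq_one_of_pos h5]
    · have h7 : Even k := by exact_mod_cast h6
      rw [Odd.neg_one_pow h7.add_one, Int.sign_eq_neg_one_of_neg h5]
  rw [e] at h3
  exact ⟨F, h2, fun s hs => h3 s hs, h4⟩

lemma both_of {M : ℤ} {n : ℕ} {d : Fin n → ℕ} (hG : Gp M.natAbs d) : BothSidesZero M d := by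
  obtain ⟨hM0, hd0⟩ := gp_ne hG
  have hM : M ≠ 0 := Int.natAbs_ne_zero.1 hM0
  refine ⟨fun w hw => ?_, fun T => ?_⟩
  · obtain ⟨κ, κ', ht, r, I, kd⟩ := exists_tateO hw (twZ_ne hM)
    refine ⟨isoZ hw M, elliptic (twZ_ne hM) hw, κ, κ', ht, fun s hs c₀ hc₀ k hk => ?_⟩
    exact Pool.Agent.Results.MP_6e2fc3_nt.CMFormsAllWeights.zero_of hw hc₀ hs
      (selZ hw hG kd hs k hk).1
  · obtain ⟨D, k, hk, hA, he⟩ := hG T
    exact ⟨D, k, hk, by have := hA.m8; omega, he, fun k hk => zero_of hA hk⟩

lemma tower_of {M : ℕ} (hM : Adm M) (hR : RankZeroShaTwo M) : InfiniteTower M := by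
  obtain ⟨D, h1, h2⟩ := Pool.Agent.F843.exists_tower hM hR
  refine ⟨D, h1, fun n => ⟨(h2 n).1, both_of ?_, both_of ?_⟩⟩
  · rw [Int.natAbs_natCast]
    exact (h2 n).2
  · rw [Int.natAbs_neg, Int.natAbs_natCast]
    exact (h2 n).2

end proof

/-- **Infinite towers of totally real fields over which both sides of the parity conjecture at `p = 2`
are `0` for forms of all weights**, for all good `M` of the class, and for at least the proportion
`c` of the `M` of the class. -/
theorem result :
    (∀ M : ℕ, Adm M → RankZeroShaTwo M → InfiniteTower M) ∧ AtLeast c InfiniteTower ∧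
    0.4194 < c ∧ c < 0.4195 :=
  ⟨fun _ hM hR => tower_of hM hR,
    Pool.Agent.F843.atLeast_fm fun _ hM hR => tower_of hM hR,
    Pool.Agent.Y948.CQ.t_C2.2.2.2.1, Pool.Agent.Y948.CQ.t_C2.2.2.2.2⟩

end Pool.Agent.Results.MP_d4aa36_nt.InfiniteTowersBothSides
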